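import Mathlib

/-!
# MP_dbf0a5_lc : set mappings on `ℵ_(ω+1)`

Under GCH (the standing hypothesis of the problem) the relation
`(ℵ_(ω+1), η, ℵ_ω) → ℵ_(ω+1)` fails for every cardinal `η ≥ 2`; the same set mapping works for all `η`.

Sketch. Let `W` be a well order of type `ω_(ω+1)`. From GCH one gets, for every `n`, sets `E n δ`
such that every unbounded `B ⊆ W` contains some `E n δ` which is a cofinal subset of `δ` of order
type `ω_(n+1)` (section Guess). Every initial segment of `W` below `α` is a countable increasing union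
of sets `D α n` of size at most `ℵ_n`. By recursion on `α` the value `A α` picks one point of `E n δ`
for each `δ ∈ D α n`, outside `A β` for `β ∈ D α n`, above all points of `D α n` below `δ`, and outside
the sets `E l γ` with `l < n`, `γ` a limit point of `D α n`; the inductive hypothesis is that
`A β ∩ E n δ` is bounded in `δ` (section Construct).
-/

set_option autoImplicit false
set_option linter.unusedSectionVars false

namespace Pool.Agent.Results.MP_dbf0a5_lc.NoRelation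

open Cardinal Set Order

universe u

lemma card_union_le' {α : Type u} {κ : Cardinal.{u}} (hκ : ℵ₀ ≤ κ) {X Y : Set α}
    (hX : #X ≤ κ) (hY : #Y ≤ κ) : #(X ∪ Y : Set α) ≤ κ :=
  (mk_union_le X Y).trans (add_le_of_le hκ hX hY)

lemma card_iUnion_le' {α ι : Type u} {κ : Cardinal.{u}} (hκ : ℵ₀ ≤ κ) (hι : #ι ≤ κ)
    {X : ι → Set α} (hX : ∀ i, #(X i) ≤ κ) : #(⋃ i, X i : Set α) ≤ κ :=
  (mk_iUnion_le X).trans (mul_le_of_le hκ hι (ciSup_le' hX))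

lemma card_biUnion_le' {α ι : Type u} {κ : Cardinal.{u}} (hκ : ℵ₀ ≤ κ) {I : Set ι} (hι : #I ≤ κ)
    {X : ι → Set α} (hX : ∀ i ∈ I, #(X i) ≤ κ) : #(⋃ i ∈ I, X i : Set α) ≤ κ := by
  refine (mk_biUnion_le X I).trans (mul_le_of_le hκ hι (ciSup_le' ?_))
  rintro ⟨i, hi⟩
  exact hX i hi

lemma card_nat_iUnion_le' {α : Type u} {κ : Cardinal.{u}} (hκ : ℵ₀ ≤ κ)
    {X : ℕ → Set α} (hX : ∀ i, #(X i) ≤ κ) : #(⋃ i, X i : Set α) ≤ κ := by
  have h := card_iUnion_le' (α := α) (ι := ULift.{u} ℕ) hκ (by simpa using hκ)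
    (X := fun i => X i.down) (fun i => hX i.down)
  have h2 : (⋃ i, X i : Set α) = ⋃ i : ULift.{u} ℕ, X i.down := by
    ext x; simp only [Set.mem_iUnion]
    exact ⟨fun ⟨i, hi⟩ => ⟨⟨i⟩, hi⟩, fun ⟨i, hi⟩ => ⟨i.down, hi⟩⟩
  rw [h2]; exact h

lemma card_mono' {α : Type u} {κ : Cardinal.{u}} {X Y : Set α} (h : X ⊆ Y) (hY : #Y ≤ κ) : #X ≤ κ :=
  (mk_le_mk_of_subset h).trans hY

lemma card_insert' {α : Type u} {κ : Cardinal.{u}} (hκ : ℵ₀ ≤ κ) {X : Set α} (a : α)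
    (hX : #X ≤ κ) : #(insert a X : Set α) ≤ κ := by
  rw [Set.insert_eq]
  refine card_union_le' hκ ?_ hX
  simpa using le_trans (one_le_aleph0) hκ

lemma card_image' {α β : Type u} {κ : Cardinal.{u}} {X : Set α} (f : α → β) (hX : #X ≤ κ) :
    #(f '' X) ≤ κ := mk_image_le.trans hX

/-- Finite alephs. -/
lemma aleph_nat_mono {m n : ℕ} (h : m ≤ n) : ℵ_ (m : Ordinal.{u}) ≤ ℵ_ (n : Ordinal.{u}) := by
  apply aleph_le_aleph.mpr
  exact_mod_cast h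

lemma aleph_nat_le_omega (n : ℕ) : ℵ_ (n : Ordinal.{u}) ≤ ℵ_ Ordinal.omega0.{u} :=
  aleph_le_aleph.mpr (Ordinal.natCast_lt_omega0 n).le

lemma aleph_nat_lt_omega (n : ℕ) : ℵ_ (n : Ordinal.{u}) < ℵ_ Ordinal.omega0.{u} :=
  aleph_lt_aleph.mpr (Ordinal.natCast_lt_omega0 n)

lemma not_le_succ_aleph (n : ℕ) : ¬ ℵ_ ((n + 1 : ℕ) : Ordinal.{u}) ≤ ℵ_ (n : Ordinal.{u}) := by
  rw [not_le]
  apply aleph_lt_aleph.mpr
  exact_mod_cast Nat.lt_succ_self n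

lemma aleph_nat_succ (n : ℕ) : ℵ_ ((n + 1 : ℕ) : Ordinal.{u}) = succ (ℵ_ (n : Ordinal.{u})) := by
  push_cast
  rw [succ_aleph]

lemma lt_aleph_succ_iff {n : ℕ} {c : Cardinal.{u}} :
    c < ℵ_ ((n + 1 : ℕ) : Ordinal.{u}) ↔ c ≤ ℵ_ (n : Ordinal.{u}) := by
  rw [aleph_nat_succ, lt_succ_iff]

/-- a model of `ℵ_ω` as a sigma type -/
def Lam : Type u := Σ n : ℕ, (ℵ_ (n : Ordinal.{u})).ord.ToType

lemma mk_Lam_le : #(Lam.{u}) ≤ ℵ_ Ordinal.omega0.{u} := by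
  have h1 : (Set.univ : Set Lam.{u}) = ⋃ n : ℕ, {x : Lam.{u} | x.1 = n} := by
    ext x; simp
  rw [← mk_univ, h1]
  refine card_nat_iUnion_le' (aleph0_le_aleph _) fun n => ?_
  have : {x : Lam.{u} | x.1 = n} = Set.range (fun a : (ℵ_ (n : Ordinal.{u})).ord.ToType => (⟨n, a⟩ : Lam.{u})) := by
    ext ⟨m, a⟩
    constructor
    · intro h
      have h' : m = n := h
      subst h'
      exact ⟨a, rfl⟩
    · rintro ⟨b, hb⟩; exact (congrArg Sigma.fst hb).symm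
  rw [this]
  refine mk_range_le.trans ?_
  rw [mk_ord_toType]
  exact aleph_nat_le_omega n

lemma le_mk_Lam : ℵ_ Ordinal.omega0.{u} ≤ #(Lam.{u}) := by
  rw [aleph_limit Ordinal.isSuccLimit_omega0]
  refine ciSup_le' ?_
  rintro ⟨o, ho⟩
  obtain ⟨n, rfl⟩ := Ordinal.lt_omega0.mp ho
  have h : #((ℵ_ (n : Ordinal.{u})).ord.ToType) ≤ #(Lam.{u}) :=
    mk_le_of_injective (f := fun a : (ℵ_ (n : Ordinal.{u})).ord.ToType => (⟨n, a⟩ : Lam.{u})) (by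
      intro a b hab
      exact eq_of_heq (Sigma.mk.inj hab).2)
  rwa [mk_ord_toType] at h

lemma mk_Lam : #(Lam.{u}) = ℵ_ Ordinal.omega0.{u} := le_antisymm mk_Lam_le le_mk_Lam

/-- Every set of size at most `ℵ_ω` is a countable increasing union of sets of size `ℵ_n`. -/
lemma exists_filtration {α : Type u} (T : Set α) (hT : #T ≤ ℵ_ Ordinal.omega0.{u}) :
    ∃ D : ℕ → Set α, (∀ n, D n ⊆ T) ∧ Monotone D ∧ (∀ t ∈ T, ∃ n, t ∈ D n) ∧
      ∀ n, #(D n) ≤ ℵ_ (n : Ordinal.{u}) := by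
  have h1 : #T ≤ #(Lam.{u}) := hT.trans le_mk_Lam
  obtain ⟨e⟩ := Cardinal.le_def _ _ |>.mp h1
  refine ⟨fun n => {t | ∃ h : t ∈ T, (e ⟨t, h⟩).1 ≤ n}, ?_, ?_, ?_, ?_⟩
  · rintro n t ⟨h, _⟩; exact h
  · rintro m n hmn t ⟨h, h'⟩; exact ⟨h, h'.trans hmn⟩
  · intro t ht; exact ⟨_, ht, le_rfl⟩
  · intro n
    have h2 : {t | ∃ h : t ∈ T, (e ⟨t, h⟩).1 ≤ n} ⊆
        ⋃ k : ℕ, {t | ∃ h : t ∈ T, (e ⟨t, h⟩).1 = k ∧ k ≤ n} := by
      rintro t ⟨h, h'⟩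
      exact Set.mem_iUnion.mpr ⟨_, h, rfl, h'⟩
    refine card_mono' h2 (card_nat_iUnion_le' (aleph0_le_aleph _) fun k => ?_)
    by_cases hk : k ≤ n
    · have h3 : #{t | ∃ h : t ∈ T, (e ⟨t, h⟩).1 = k ∧ k ≤ n} ≤ #((ℵ_ (k : Ordinal.{u})).ord.ToType) := by
        refine mk_le_of_injective (f := fun t => (t.2.choose_spec.1 ▸ (e ⟨t.1, t.2.choose⟩).2 :
          (ℵ_ (k : Ordinal.{u})).ord.ToType)) ?_
        rintro ⟨t, ht⟩ ⟨t', ht'⟩ heq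
        have e1 : ∀ (x : Lam.{u}) (hx : x.1 = k), x = ⟨k, hx ▸ x.2⟩ := by
          rintro ⟨m, a⟩ rfl; rfl
        have e2 := e1 _ ht.choose_spec.1
        have e3 := e1 _ ht'.choose_spec.1
        have e4 : e ⟨t, ht.choose⟩ = e ⟨t', ht'.choose⟩ := by
          rw [e2, e3]
          congr 1
        have e5 := e.injective e4
        simpa using e5
      rw [mk_ord_toType] at h3
      exact h3.trans (aleph_nat_mono hk)
    · have : {t | ∃ h : t ∈ T, (e ⟨t, h⟩).1 = k ∧ k ≤ n} = ∅ := by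
        ext t; simp [hk]
      rw [this]; simp

section Guess

variable {W : Type u} [LinearOrder W] [WellFoundedLT W]
/-- `E` is a ladder of size `ℵ_(n+1)` with top `δ`. -/
def Ladder (n : ℕ) (δ : W) (E : Set W) : Prop :=
  E ⊆ Iio δ ∧ #E ≤ ℵ_ ((n + 1 : ℕ) : Ordinal.{u}) ∧ ¬ #E ≤ ℵ_ (n : Ordinal.{u}) ∧
    ∀ ρ < δ, #(E ∩ Iic ρ : Set W) ≤ ℵ_ (n : Ordinal.{u})

/-- existence of increasing sequences closed under a function -/
lemma exists_seq (n : ℕ) (hW2 : ∀ X : Set W, #X ≤ ℵ_ Ordinal.omega0.{u} → ∃ w, ∀ x ∈ X, x < w)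
    (G : W → W) :
    ∃ d : (ℵ_ ((n + 1 : ℕ) : Ordinal.{u})).ord.ToType → W, ∀ ζ, ∀ ξ < ζ, G (d ξ) < d ζ := by
  classical
  choose ub hub using fun X : {X : Set W // #X ≤ ℵ_ Ordinal.omega0.{u}} => hW2 X.1 X.2
  let Ξ := (ℵ_ ((n + 1 : ℕ) : Ordinal.{u})).ord.ToType
  have hbase : #(∅ : Set W) ≤ ℵ_ Ordinal.omega0.{u} := by simp
  let ub' : Set W → W := fun X => if h : #X ≤ ℵ_ Ordinal.omega0.{u} then ub ⟨X, h⟩ else ub ⟨∅, hbase⟩
  have hub' : ∀ X : Set W, #X ≤ ℵ_ Ordinal.omega0.{u} → ∀ x ∈ X, x < ub' X := by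
    intro X hX x hx
    simp only [ub', hX, dif_pos]
    exact hub ⟨X, hX⟩ x hx
  let d : Ξ → W := WellFounded.fix (r := (· < ·)) wellFounded_lt
    (fun ζ prev => ub' (Set.range fun ξ : Iio ζ => G (prev ξ.1 ξ.2)))
  have hd : ∀ ζ, d ζ = ub' (Set.range fun ξ : Iio ζ => G (d ξ.1)) := by
    intro ζ
    simp only [d]
    rw [WellFounded.fix_eq]
  refine ⟨d, ?_⟩
  intro ζ ξ hξ
  rw [hd ζ]
  refine hub' _ ?_ _ ⟨⟨ξ, hξ⟩, rfl⟩
  have h1 : #(Set.range fun ξ : Iio ζ => G (d ξ.1)) ≤ #(Iio ζ) := mk_range_le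
  have h2 : #(Iio ζ) < #Ξ := mk_Iio_lt ζ (by simp)
  have h3 : #Ξ = ℵ_ ((n + 1 : ℕ) : Ordinal.{u}) := mk_ord_toType _
  rw [h3] at h2
  exact h1.trans (h2.le.trans (aleph_nat_le_omega _))

theorem guess (n : ℕ) (Λ : Type u) (hΛ : #Λ ≤ ℵ_ Ordinal.omega0.{u})
    (hW1 : ∀ α : W, #(Iio α) ≤ ℵ_ Ordinal.omega0.{u})
    (hW2 : ∀ X : Set W, #X ≤ ℵ_ Ordinal.omega0.{u} → ∃ w, ∀ x ∈ X, x < w)
    (D : W → ℕ → Set W) (hD : ∀ α, ∀ β < α, ∃ k, β ∈ D α k)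
    (c : W → Λ → W) (hc : Function.Surjective c)
    (g : W → Λ → Set W) (hg : ∀ δ k (C : Set W), C ⊆ D δ k → ∃ j, g δ j = C) :
    ∃ E : W → Set W, ∀ B : Set W, (∀ w, ∃ b ∈ B, w < b) → ∃ δ, Ladder n δ (E δ) ∧ E δ ⊆ B := by
  classical
  suffices h : ∃ j : Λ, ∀ B : Set W, (∀ w, ∃ b ∈ B, w < b) →
      ∃ δ, Ladder n δ ((fun β => c β j) '' (g δ j)) ∧ ((fun β => c β j) '' (g δ j)) ⊆ B by
    obtain ⟨j, hj⟩ := h
    exact ⟨fun δ => (fun β => c β j) '' (g δ j), hj⟩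
  by_contra hcon
  push Not at hcon
  choose B hB1 hB2 using hcon
  -- coding function
  have hF : ∀ α, ∃ β, ∀ j, c β j ∈ B j ∧ α < c β j := by
    intro α
    choose f hf using fun j => hB1 j α
    obtain ⟨β, hβ⟩ := hc f
    exact ⟨β, fun j => by rw [hβ]; exact hf j⟩
  choose F hF1 using hF
  have hIic : ∀ α : W, #(Iic α) ≤ ℵ_ Ordinal.omega0.{u} := by
    intro α
    rw [← Iio_insert]
    exact card_insert' (aleph0_le_aleph _) _ (hW1 α)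
  have hG : ∀ α, ∃ γ, α < γ ∧ (∀ β ≤ α, F β < γ) ∧ ∀ β ≤ α, ∀ j, c (F β) j < γ := by
    intro α
    obtain ⟨w, hw⟩ := hW2 (insert α (F '' Iic α) ∪ ⋃ β ∈ Iic α, Set.range (fun j => c (F β) j)) (by
      refine card_union_le' (aleph0_le_aleph _) ?_ ?_
      · exact card_insert' (aleph0_le_aleph _) _ (card_image' _ (hIic α))
      · exact card_biUnion_le' (aleph0_le_aleph _) (hIic α) fun β _ => mk_range_le.trans hΛ)
    refine ⟨w, hw _ (Or.inl (Set.mem_insert _ _)), fun β hβ => hw _ (Or.inl (Set.mem_insert_of_mem _ ⟨β, hβ, rfl⟩)),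
      fun β hβ j => hw _ (Or.inr ?_)⟩
    exact Set.mem_biUnion hβ ⟨j, rfl⟩
  choose G hG1 hG2 hG3 using hG
  let Ξ := (ℵ_ ((n + 1 : ℕ) : Ordinal.{u})).ord.ToType
  obtain ⟨d, hd⟩ : ∃ d : Ξ → W, ∀ ζ, ∀ ξ < ζ, G (d ξ) < d ζ := exists_seq n hW2 G
  have hΞc : #Ξ = ℵ_ ((n + 1 : ℕ) : Ordinal.{u}) := mk_ord_toType _
  have hΞI : ∀ ζ : Ξ, #(Iio ζ) ≤ ℵ_ (n : Ordinal.{u}) := by
    intro ζ
    have h2 : #(Iio ζ) < #Ξ := mk_Iio_lt ζ (by simp [Ξ])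
    rw [hΞc, lt_aleph_succ_iff] at h2
    exact h2
  have hΞI' : ∀ ζ : Ξ, #(Iic ζ) ≤ ℵ_ (n : Ordinal.{u}) := by
    intro ζ
    rw [← Iio_insert]
    exact card_insert' (aleph0_le_aleph _) _ (hΞI ζ)
  have hΞu : ∀ ζ : Ξ, ∃ ξ, ζ < ξ := by
    intro ζ
    by_contra hcon
    push Not at hcon
    have h1 : (Set.univ : Set Ξ) ⊆ Iic ζ := fun x _ => hcon x
    have h2 := card_mono' h1 (hΞI' ζ)
    rw [mk_univ, hΞc] at h2
    exact not_le_succ_aleph n h2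
  -- the top
  have hne : {w : W | ∀ ξ, d ξ < w}.Nonempty := by
    obtain ⟨w, hw⟩ := hW2 (Set.range d) (by
      refine mk_range_le.trans ?_
      rw [hΞc]; exact aleph_nat_le_omega _)
    exact ⟨w, fun ξ => hw _ ⟨ξ, rfl⟩⟩
  set δ := (wellFounded_lt (α := W)).min _ hne with hδ
  have hδ1 : ∀ ξ, d ξ < δ := (wellFounded_lt (α := W)).min_mem _ hne
  have hδ2 : ∀ ρ < δ, ∃ ξ, ρ ≤ d ξ := by
    intro ρ hρ
    by_contra hcon
    push Not at hcon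
    exact (wellFounded_lt (α := W)).not_lt_min {w : W | ∀ ξ, d ξ < w} hcon hρ
  have hGd : ∀ ξ, G (d ξ) < δ := by
    intro ξ
    obtain ⟨ζ, hζ⟩ := hΞu ξ
    exact (hd ζ ξ hζ).trans (hδ1 ζ)
  have hFd : ∀ ξ, F (d ξ) < δ := fun ξ => (hG2 _ _ le_rfl).trans (hGd ξ)
  -- pigeonhole
  obtain ⟨k, hk⟩ : ∃ k, ¬ #{ξ : Ξ | F (d ξ) ∈ D δ k} ≤ ℵ_ (n : Ordinal.{u}) := by
    by_contra hcon
    push Not at hcon
    have h1 : (Set.univ : Set Ξ) ⊆ ⋃ k, {ξ : Ξ | F (d ξ) ∈ D δ k} := by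
      intro ξ _
      obtain ⟨k, hk⟩ := hD δ _ (hFd ξ)
      exact Set.mem_iUnion.mpr ⟨k, hk⟩
    have h2 := card_mono' h1 (card_nat_iUnion_le' (aleph0_le_aleph _) hcon)
    rw [mk_univ, hΞc] at h2
    exact not_le_succ_aleph n h2
  obtain ⟨j, hj⟩ := hg δ k ((fun ξ => F (d ξ)) '' {ξ : Ξ | F (d ξ) ∈ D δ k}) (by
    rintro _ ⟨ξ, hξ, rfl⟩; exact hξ)
  have himg : (fun β => c β j) '' (g δ j) = (fun ξ => c (F (d ξ)) j) '' {ξ : Ξ | F (d ξ) ∈ D δ k} := by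
    rw [hj, Set.image_image]
  have hmono : ∀ ξ ζ : Ξ, ξ < ζ → c (F (d ξ)) j < c (F (d ζ)) j := by
    intro ξ ζ h
    exact ((hG3 _ _ le_rfl j).trans (hd ζ ξ h)).trans (hF1 (d ζ) j).2
  have hinj : Function.Injective (fun ξ : Ξ => c (F (d ξ)) j) := by
    intro ξ ζ h
    rcases lt_trichotomy ξ ζ with h1 | h1 | h1
    · exact absurd h (hmono _ _ h1).ne
    · exact h1
    · exact absurd h (hmono _ _ h1).ne'
  refine hB2 j δ ?_ ?_
  · rw [himg]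
    refine ⟨?_, ?_, ?_, ?_⟩
    · rintro _ ⟨ξ, _, rfl⟩
      exact (hG3 _ _ le_rfl j).trans (hGd ξ)
    · refine mk_image_le.trans ?_
      rw [← hΞc]
      exact mk_set_le _
    · rw [mk_image_eq hinj]
      exact hk
    · intro ρ hρ
      obtain ⟨ζ, hζ⟩ := hδ2 ρ hρ
      refine card_mono' (Y := (fun ξ : Ξ => c (F (d ξ)) j) '' Iio ζ) ?_ (card_image' _ (hΞI ζ))
      rintro _ ⟨⟨ξ, _, rfl⟩, hx2⟩
      refine ⟨ξ, ?_, rfl⟩
      by_contra hge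
      have hge' : ζ ≤ ξ := not_lt.mp hge
      have h1 : d ζ ≤ d ξ := by
        rcases hge'.eq_or_lt with h | h
        · rw [h]
        · exact ((hG1 _).trans (hd ξ ζ h)).le
      have h2 : d ξ < c (F (d ξ)) j := (hF1 (d ξ) j).2
      exact absurd (lt_of_le_of_lt (hζ.trans h1) h2) (not_lt.mpr hx2)
  · rw [himg]
    rintro _ ⟨ξ, _, rfl⟩
    exact (hF1 (d ξ) j).1

end Guess

section Construct

variable {W : Type u} [LinearOrder W] [WellFoundedLT W]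
/-- Limit points. -/
def acc (D : Set W) : Set W := {γ | ∀ ρ < γ, ∃ d ∈ D, ρ < d ∧ d < γ}

lemma acc_card {n : ℕ} {α : W} {D : Set W} (hDα : D ⊆ Iio α) (hD : #D ≤ ℵ_ (n : Ordinal.{u})) :
    #(acc D) ≤ ℵ_ (n : Ordinal.{u}) := by
  classical
  have hle : ∀ γ ∈ acc D, γ ≤ α := by
    intro γ hγ
    by_contra hcon
    obtain ⟨d, hd, h1, _⟩ := hγ α (not_le.mp hcon)
    exact absurd (hDα hd) (not_lt.mpr h1.le)
  have hne : ∀ γ : acc D, {d : W | d ∈ insert α D ∧ γ.1 ≤ d}.Nonempty :=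
    fun γ => ⟨α, Set.mem_insert _ _, hle _ γ.2⟩
  let φ : acc D → (insert α D : Set W) := fun γ =>
    ⟨(wellFounded_lt (α := W)).min _ (hne γ), ((wellFounded_lt (α := W)).min_mem _ (hne γ)).1⟩
  have hφ : ∀ γ γ' : acc D, γ < γ' → φ γ < φ γ' := by
    intro γ γ' h
    obtain ⟨d, hd, h1, h2⟩ := γ'.2 γ.1 h
    have h3 : ¬ d < (φ γ).1 :=
      (wellFounded_lt (α := W)).not_lt_min {d : W | d ∈ insert α D ∧ γ.1 ≤ d}
        (show d ∈ insert α D ∧ γ.1 ≤ d from ⟨Set.mem_insert_of_mem _ hd, h1.le⟩)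
    have h4 : γ'.1 ≤ (φ γ').1 := ((wellFounded_lt (α := W)).min_mem _ (hne γ')).2
    show (φ γ).1 < (φ γ').1
    exact lt_of_lt_of_le (lt_of_le_of_lt (not_lt.mp h3) h2) h4
  have hinj : Function.Injective φ := by
    intro γ γ' h
    rcases lt_trichotomy γ γ' with h1 | h1 | h1
    · exact absurd h (hφ _ _ h1).ne
    · exact h1
    · exact absurd h (hφ _ _ h1).ne'
  exact (mk_le_of_injective hinj).trans (card_insert' (aleph0_le_aleph _) _ hD)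

section Con

variable (D : W → ℕ → Set W) (E : ℕ → W → Set W)

/-- Points to be avoided. -/
def Excl (α : W) (n : ℕ) (δ : W) (P : Set W) : Set W :=
  {x | ∃ d ∈ D α n, d < δ ∧ x ≤ d} ∪
  {x | ∃ l < n, ∃ γ ∈ acc (D α n), Ladder l γ (E l γ) ∧ x ∈ E l γ} ∪ P

variable [Nonempty W]

/-- The set mapping. -/
noncomputable def AA : W → Set W :=
  WellFounded.fix (r := (· < ·)) wellFounded_lt (fun α prev =>
    {x | ∃ n, ∃ δ, δ ∈ D α n ∧ Ladder n δ (E n δ) ∧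
      x = Classical.epsilon (fun y => y ∈ E n δ ∧
        y ∉ Excl D E α n δ {z | ∃ β, ∃ h : β < α, β ∈ D α n ∧ z ∈ prev β h})})

/-- The chosen point. -/
noncomputable def xx (α : W) (n : ℕ) (δ : W) : W :=
  Classical.epsilon (fun y => y ∈ E n δ ∧
        y ∉ Excl D E α n δ {z | ∃ β, ∃ _ : β < α, β ∈ D α n ∧ z ∈ AA D E β})

lemma AA_eq (α : W) : AA D E α = {x | ∃ n, ∃ δ, δ ∈ D α n ∧ Ladder n δ (E n δ) ∧ x = xx D E α n δ} := by
  conv_lhs => rw [AA, WellFounded.fix_eq]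
  rfl

variable (hD1 : ∀ α n, D α n ⊆ Iio α) (hD2 : ∀ α, Monotone (D α))
  (hD3 : ∀ α, ∀ β < α, ∃ k, β ∈ D α k) (hD4 : ∀ α n, #(D α n) ≤ ℵ_ (n : Ordinal.{u}))

include hD1 hD4

/-- existence of the point, given the induction hypothesis -/
lemma xx_spec (α : W) (IH : ∀ β < α, ∀ l γ, Ladder l γ (E l γ) → #(AA D E β ∩ E l γ : Set W) ≤ ℵ_ (l : Ordinal.{u}))
    (n : ℕ) (δ : W) (hL : Ladder n δ (E n δ)) :
    xx D E α n δ ∈ E n δ ∧ xx D E α n δ ∉ Excl D E α n δ {z | ∃ β, ∃ _ : β < α, β ∈ D α n ∧ z ∈ AA D E β} := by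
  have h0 : ℵ₀ ≤ ℵ_ (n : Ordinal.{u}) := aleph0_le_aleph _
  have key : ∃ y, y ∈ E n δ ∧ y ∉ Excl D E α n δ {z | ∃ β, ∃ _ : β < α, β ∈ D α n ∧ z ∈ AA D E β} := by
    by_contra hcon
    push Not at hcon
    apply hL.2.2.1
    have hsub : E n δ ⊆
        ((⋃ d ∈ {d | d ∈ D α n ∧ d < δ}, (E n δ ∩ Iic d)) ∪
        (⋃ l : ℕ, ⋃ γ ∈ {γ | γ ∈ acc (D α n) ∧ l < n ∧ Ladder l γ (E l γ)}, E l γ)) ∪
        (⋃ β ∈ {β | β ∈ D α n ∧ β < α}, (AA D E β ∩ E n δ)) := by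
      intro y hy
      rcases hcon y hy with (⟨d, hd, h1, h2⟩ | ⟨l, hl, γ, hγ, hLγ, hyγ⟩) | ⟨β, hβ, h1, h2⟩
      · exact Or.inl (Or.inl (Set.mem_biUnion (show d ∈ {d | d ∈ D α n ∧ d < δ} from ⟨hd, h1⟩) ⟨hy, h2⟩))
      · refine Or.inl (Or.inr (Set.mem_iUnion.mpr ⟨l, ?_⟩))
        exact Set.mem_biUnion (show γ ∈ {γ | γ ∈ acc (D α n) ∧ l < n ∧ Ladder l γ (E l γ)} from ⟨hγ, hl, hLγ⟩) hyγ
      · exact Or.inr (Set.mem_biUnion (show β ∈ {β | β ∈ D α n ∧ β < α} from ⟨h1, hβ⟩) ⟨h2, hy⟩)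
    refine card_mono' hsub (card_union_le' h0 (card_union_le' h0 ?_ ?_) ?_)
    · refine card_biUnion_le' h0 (card_mono' (fun d hd => hd.1) (hD4 α n)) ?_
      intro d hd
      exact hL.2.2.2 d hd.2
    · refine card_nat_iUnion_le' h0 fun l => ?_
      refine card_biUnion_le' h0 (card_mono' (fun d hd => hd.1) (acc_card (hD1 α n) (hD4 α n))) ?_
      intro γ hγ
      exact hγ.2.2.2.1.trans (aleph_nat_mono hγ.2.1)
    · refine card_biUnion_le' h0 (card_mono' (fun d hd => hd.1) (hD4 α n)) ?_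
      intro β hβ
      exact IH β hβ.2 n δ hL
  exact Classical.epsilon_spec key

/-- The main inductive property. -/
lemma star_prop (α : W) : ∀ l γ, Ladder l γ (E l γ) → #(AA D E α ∩ E l γ : Set W) ≤ ℵ_ (l : Ordinal.{u}) := by
  induction α using WellFoundedLT.induction with
  | ind α IH =>
  intro l γ hLγ
  have h0 : ℵ₀ ≤ ℵ_ (l : Ordinal.{u}) := aleph0_le_aleph _
  have hsub : AA D E α ∩ E l γ ⊆
      ⋃ n : ℕ, {x | x ∈ E l γ ∧ ∃ δ, δ ∈ D α n ∧ Ladder n δ (E n δ) ∧ x = xx D E α n δ} := by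
    rintro x ⟨hx1, hx2⟩
    rw [AA_eq] at hx1
    obtain ⟨n, δ, h1, h2, h3⟩ := hx1
    exact Set.mem_iUnion.mpr ⟨n, hx2, δ, h1, h2, h3⟩
  refine card_mono' hsub (card_nat_iUnion_le' h0 fun n => ?_)
  rcases le_or_gt n l with hnl | hnl
  · -- few points
    refine card_mono' (Y := (fun δ => xx D E α n δ) '' (D α n)) ?_
      ((card_image' _ (hD4 α n)).trans (aleph_nat_mono hnl))
    rintro x ⟨_, δ, h1, _, h3⟩
    exact ⟨δ, h1, h3.symm⟩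
  · by_cases hacc : γ ∈ acc (D α n)
    · have : {x | x ∈ E l γ ∧ ∃ δ, δ ∈ D α n ∧ Ladder n δ (E n δ) ∧ x = xx D E α n δ} = ∅ := by
        rw [Set.eq_empty_iff_forall_notMem]
        rintro x ⟨h1, δ, h2, h3, rfl⟩
        have h4 := (xx_spec D E hD1 hD4 α IH n δ h3).2
        exact h4 (Or.inl (Or.inr ⟨l, hnl, γ, hacc, hLγ, h1⟩))
      rw [this]; simp
    · have hacc' : ∃ ρ < γ, ∀ d ∈ D α n, ρ < d → γ ≤ d := by
        by_contra hcon
        push Not at hcon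
        exact hacc fun ρ hρ => hcon ρ hρ
      obtain ⟨ρ, hρ, hρ2⟩ := hacc'
      have hsub2 : {x | x ∈ E l γ ∧ ∃ δ, δ ∈ D α n ∧ Ladder n δ (E n δ) ∧ x = xx D E α n δ} ⊆
          (E l γ ∩ Iic ρ) ∪ {x | x < γ ∧ ∃ δ, δ ∈ D α n ∧ γ ≤ δ ∧ Ladder n δ (E n δ) ∧ x = xx D E α n δ} := by
        rintro x ⟨h1, δ, h2, h3, h4⟩
        rcases le_or_gt δ ρ with h5 | h5
        · left
          refine ⟨h1, ?_⟩
          have h6 := h3.1 (xx_spec D E hD1 hD4 α IH n δ h3).1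
          rw [h4]
          exact (le_of_lt h6).trans h5
        · right
          exact ⟨hLγ.1 h1, δ, h2, hρ2 δ h2 h5, h3, h4⟩
      refine card_mono' hsub2 (card_union_le' h0 (hLγ.2.2.2 ρ hρ) ?_)
      refine le_trans (mk_le_one_iff_set_subsingleton.mpr ?_) (one_le_aleph0.trans h0)
      -- at most one point
      have key : ∀ δ δ', δ ∈ D α n → δ' ∈ D α n → γ ≤ δ → Ladder n δ' (E n δ') → δ < δ' →
          ¬ xx D E α n δ' < γ := by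
        intro δ δ' h1 h2 h3 h4 h5 h6
        have h7 := (xx_spec D E hD1 hD4 α IH n δ' h4).2
        exact h7 (Or.inl (Or.inl ⟨δ, h1, h5, (h6.le).trans h3⟩))
      rintro x ⟨hx, δ, h1, h2, h3, h4⟩ x' ⟨hx', δ', h1', h2', h3', h4'⟩
      rcases lt_trichotomy δ δ' with h | h | h
      · exact absurd (h4' ▸ hx') (key δ δ' h1 h1' h2 h3' h)
      · rw [h4, h4', h]
      · exact absurd (h4 ▸ hx) (key δ' δ h1' h1 h2' h3 h)

lemma xx_spec' (α : W) (n : ℕ) (δ : W) (hL : Ladder n δ (E n δ)) :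
    xx D E α n δ ∈ E n δ ∧ xx D E α n δ ∉ Excl D E α n δ {z | ∃ β, ∃ _ : β < α, β ∈ D α n ∧ z ∈ AA D E β} :=
  xx_spec D E hD1 hD4 α (fun β _ => star_prop D E hD1 hD4 β) n δ hL

/-- The values are initial. -/
lemma AA_sub (α : W) : AA D E α ⊆ Iio α := by
  intro x hx
  rw [AA_eq] at hx
  obtain ⟨n, δ, h1, h2, rfl⟩ := hx
  exact (h2.1 (xx_spec' D E hD1 hD4 α n δ h2).1).trans (hD1 α n h1)

include hD2 hD3

/-- Almost disjointness. -/
lemma AA_ad (α β : W) (hβ : β < α) : ∃ n : ℕ, #(AA D E α ∩ AA D E β : Set W) ≤ ℵ_ (n : Ordinal.{u}) := by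
  obtain ⟨k, hk⟩ := hD3 α β hβ
  refine ⟨k, ?_⟩
  have h0 : ℵ₀ ≤ ℵ_ (k : Ordinal.{u}) := aleph0_le_aleph _
  have hsub : AA D E α ∩ AA D E β ⊆ ⋃ n : ℕ, {x | n < k ∧ ∃ δ, δ ∈ D α n ∧ x = xx D E α n δ} := by
    rintro x ⟨hx1, hx2⟩
    rw [AA_eq] at hx1
    obtain ⟨n, δ, h1, h2, h3⟩ := hx1
    refine Set.mem_iUnion.mpr ⟨n, ?_, δ, h1, h3⟩
    by_contra hcon
    have hkn : k ≤ n := not_lt.mp hcon
    have h4 := (xx_spec' D E hD1 hD4 α n δ h2).2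
    exact h4 (Or.inr ⟨β, hβ, hD2 α hkn hk, h3 ▸ hx2⟩)
  refine card_mono' hsub (card_nat_iUnion_le' h0 fun n => ?_)
  by_cases hn : n < k
  · refine card_mono' (Y := (fun δ => xx D E α n δ) '' (D α n)) ?_
      ((card_image' _ (hD4 α n)).trans (aleph_nat_mono hn.le))
    rintro x ⟨_, δ, h1, h3⟩
    exact ⟨δ, h1, h3.symm⟩
  · have : {x | n < k ∧ ∃ δ, δ ∈ D α n ∧ x = xx D E α n δ} = ∅ := by
      ext x; simp [hn]
    rw [this]; simp

omit hD2 hD3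

/-- No unbounded free set. -/
lemma AA_nofree
    (hcatch : ∀ t : ℕ → W, ∃ α₀, ∀ α > α₀, ∃ n, t n ∈ D α n)
    (hE : ∀ n, ∀ B : Set W, (∀ w, ∃ b ∈ B, w < b) → ∃ δ, Ladder n δ (E n δ) ∧ E n δ ⊆ B)
    (B : Set W) (hB : ∀ w, ∃ b ∈ B, w < b) : ∃ α ∈ B, ∃ x ∈ B, x < α ∧ x ∈ AA D E α := by
  choose t ht1 ht2 using fun n => hE n B hB
  obtain ⟨α₀, hα₀⟩ := hcatch t
  obtain ⟨α, hαB, hα⟩ := hB α₀
  obtain ⟨n, hn⟩ := hα₀ α hα
  have h1 := xx_spec' D E hD1 hD4 α n (t n) (ht1 n)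
  have h2 : xx D E α n (t n) ∈ AA D E α := by
    rw [AA_eq]
    exact ⟨n, t n, hn, ht1 n, rfl⟩
  exact ⟨α, hαB, xx D E α n (t n), ht2 n h1.1, AA_sub D E hD1 hD4 α h2, h2⟩

end Con

end Construct

/-- The relation `(κ, η, θ) → ι` of the problem: every set mapping `f` of order `κ` on a set `S` of
cardinality `κ` with `|⋂ f[X]| < θ` for all `X ∈ [S]^η` has a free set of cardinality `ι`. -/
def SetMapArrow (κ η θ ι : Cardinal.{u}) : Prop :=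
  ∀ S : Type u, #S = κ → ∀ f : S → Set S,
    (∀ x, x ∉ f x) → (∀ x, #(f x) < κ) →
    (∀ X : Set S, #X = η → #(⋂ x ∈ X, f x : Set S) < θ) →
    ∃ F : Set S, #F = ι ∧ ∀ x ∈ F, ∀ y ∈ F, x ≠ y → x ∉ f y

lemma exists_surj {α β : Type u} [Nonempty β] (h : #β ≤ #α) : ∃ f : α → β, Function.Surjective f := by
  obtain ⟨e⟩ := Cardinal.le_def _ _ |>.mp h
  exact ⟨Function.invFun e, Function.invFun_surjective e.injective⟩

/-- Under GCH, `(ℵ_(ω+1), η, ℵ_ω) → ℵ_(ω+1)` fails for every cardinal `η ≥ 2`. -/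
theorem result (GCH : ∀ c : Cardinal.{u}, ℵ₀ ≤ c → (2 : Cardinal.{u}) ^ c = succ c)
    (η : Cardinal.{u}) (hη : 2 ≤ η) :
    ¬ SetMapArrow (ℵ_ (Ordinal.omega0.{u} + 1)) η (ℵ_ Ordinal.omega0.{u}) (ℵ_ (Ordinal.omega0.{u} + 1)) := by
  classical
  intro harrow
  have hsucc : succ (ℵ_ Ordinal.omega0.{u}) = ℵ_ (Ordinal.omega0.{u} + 1) := succ_aleph _
  have hlt_iff : ∀ c : Cardinal.{u}, c < ℵ_ (Ordinal.omega0.{u} + 1) ↔ c ≤ ℵ_ Ordinal.omega0.{u} := by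
    intro c
    rw [← hsucc, lt_succ_iff]
  have h0 : ℵ₀ ≤ ℵ_ Ordinal.omega0.{u} := aleph0_le_aleph _
  let W : Type u := (ℵ_ (Ordinal.omega0.{u} + 1)).ord.ToType
  have hW : #W = ℵ_ (Ordinal.omega0.{u} + 1) := mk_ord_toType _
  have hWne : Nonempty W := by
    rw [← mk_ne_zero_iff, hW]
    exact (aleph_pos _).ne'
  have hW1 : ∀ α : W, #(Iio α) ≤ ℵ_ Ordinal.omega0.{u} := by
    intro α
    have h2 : #(Iio α) < #W := mk_Iio_lt α (by simp [W])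
    rw [hW] at h2
    exact (hlt_iff _).mp h2
  have hIic : ∀ α : W, #(Iic α) ≤ ℵ_ Ordinal.omega0.{u} := by
    intro α
    rw [← Iio_insert]
    exact card_insert' h0 _ (hW1 α)
  have hnot : ¬ #W ≤ ℵ_ Ordinal.omega0.{u} := by
    rw [hW, ← hsucc, not_le]
    exact lt_succ _
  have hW2 : ∀ X : Set W, #X ≤ ℵ_ Ordinal.omega0.{u} → ∃ w, ∀ x ∈ X, x < w := by
    intro X hX
    by_contra hcon
    push Not at hcon
    apply hnot
    rw [← mk_univ]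
    refine card_mono' (Y := ⋃ x ∈ X, Iic x) ?_ (card_biUnion_le' h0 hX fun x _ => hIic x)
    intro w _
    obtain ⟨x, hx, hwx⟩ := hcon w
    exact Set.mem_biUnion hx hwx
  -- exponentiation
  have hpow : (ℵ_ (Ordinal.omega0.{u} + 1)) ^ (ℵ_ Ordinal.omega0.{u}) ≤ ℵ_ (Ordinal.omega0.{u} + 1) := by
    have h1 : (2 : Cardinal.{u}) ^ (ℵ_ Ordinal.omega0.{u}) = ℵ_ (Ordinal.omega0.{u} + 1) := by
      rw [GCH _ h0, hsucc]
    calc (ℵ_ (Ordinal.omega0.{u} + 1)) ^ (ℵ_ Ordinal.omega0.{u})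
        = ((2 : Cardinal.{u}) ^ (ℵ_ Ordinal.omega0.{u})) ^ (ℵ_ Ordinal.omega0.{u}) := by rw [h1]
      _ = (2 : Cardinal.{u}) ^ (ℵ_ Ordinal.omega0.{u}) := by rw [← power_mul, mul_eq_self h0]
      _ = ℵ_ (Ordinal.omega0.{u} + 1) := h1
      _ ≤ _ := le_rfl
  -- filtrations
  choose D0 hD0sub hD0mono hD0un hD0card using fun α : W => exists_filtration (Iio α) (hW1 α)
  obtain ⟨s, hs⟩ : ∃ s : W → (ULift.{u} ℕ → W), Function.Surjective s := by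
    apply exists_surj
    rw [mk_pi]
    simp only [prod_const, hW]
    refine le_trans ?_ hpow
    simp only [lift_id]
    refine power_le_power_left (aleph_pos _).ne' ?_
    simp
  let D : W → ℕ → Set W := fun α n => D0 α n ∪ ((⋃ ξ ∈ D0 α n, Set.range (s ξ)) ∩ Iio α)
  have hD1 : ∀ α n, D α n ⊆ Iio α := by
    intro α n
    exact Set.union_subset (hD0sub α n) Set.inter_subset_right
  have hD2 : ∀ α, Monotone (D α) := by
    intro α m n hmn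
    refine Set.union_subset_union (hD0mono α hmn) (Set.inter_subset_inter_left _ ?_)
    exact Set.biUnion_subset_biUnion_left (hD0mono α hmn)
  have hD3 : ∀ α, ∀ β < α, ∃ k, β ∈ D α k := by
    intro α β hβ
    obtain ⟨k, hk⟩ := hD0un α β hβ
    exact ⟨k, Or.inl hk⟩
  have hD4 : ∀ α n, #(D α n) ≤ ℵ_ (n : Ordinal.{u}) := by
    intro α n
    have h00 : ℵ₀ ≤ ℵ_ (n : Ordinal.{u}) := aleph0_le_aleph _
    refine card_union_le' h00 (hD0card α n) (card_mono' Set.inter_subset_left ?_)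
    refine card_biUnion_le' h00 (hD0card α n) fun ξ _ => mk_range_le.trans ?_
    simp
  have hcatch : ∀ t : ℕ → W, ∃ α₀, ∀ α > α₀, ∃ n, t n ∈ D α n := by
    intro t
    obtain ⟨ξ, hξ⟩ := hs (fun i => t i.down)
    obtain ⟨w, hw⟩ := hW2 (insert ξ (Set.range (fun i : ULift.{u} ℕ => t i.down)))
      (card_insert' h0 _ (mk_range_le.trans (by simp)))
    refine ⟨w, fun α hα => ?_⟩
    obtain ⟨k, hk⟩ := hD0un α ξ ((hw _ (Set.mem_insert _ _)).trans hα)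
    refine ⟨k, Or.inr ⟨Set.mem_biUnion hk ⟨⟨k⟩, by rw [hξ]⟩, ?_⟩⟩
    exact (hw _ (Set.mem_insert_of_mem _ ⟨⟨k⟩, rfl⟩)).trans hα
  -- coding and guesses
  obtain ⟨c, hc⟩ : ∃ c : W → (Lam.{u} → W), Function.Surjective c := by
    apply exists_surj
    rw [mk_pi]
    simp only [prod_const, hW, mk_Lam]
    simpa using hpow
  have hg : ∀ δ : W, ∃ g : Lam.{u} → {C : Set W // ∃ k, C ⊆ D δ k}, Function.Surjective g := by
    intro δ
    have : Nonempty {C : Set W // ∃ k, C ⊆ D δ k} := ⟨⟨∅, 0, Set.empty_subset _⟩⟩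
    apply exists_surj
    rw [mk_Lam]
    have h1 : #{C : Set W // ∃ k, C ⊆ D δ k} = #({C : Set W | ∃ k, C ⊆ D δ k}) := rfl
    rw [h1]
    refine card_mono' (Y := ⋃ k : ℕ, 𝒫 (D δ k)) ?_ (card_nat_iUnion_le' h0 fun k => ?_)
    · rintro C ⟨k, hk⟩
      exact Set.mem_iUnion.mpr ⟨k, hk⟩
    · rw [mk_powerset]
      calc (2 : Cardinal.{u}) ^ #(D δ k) ≤ (2 : Cardinal.{u}) ^ (ℵ_ (k : Ordinal.{u})) :=
            power_le_power_left (by norm_num) (hD4 δ k)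
        _ = ℵ_ ((k + 1 : ℕ) : Ordinal.{u}) := by rw [GCH _ (aleph0_le_aleph _), aleph_nat_succ]
        _ ≤ _ := aleph_nat_le_omega _
  choose g0 hg0 using hg
  have hguess : ∀ n : ℕ, ∃ E : W → Set W, ∀ B : Set W, (∀ w, ∃ b ∈ B, w < b) →
      ∃ δ, Ladder n δ (E δ) ∧ E δ ⊆ B := by
    intro n
    refine guess n Lam.{u} mk_Lam_le hW1 hW2 D hD3 c hc (fun δ j => (g0 δ j).1) ?_
    intro δ k C hC
    obtain ⟨j, hj⟩ := hg0 δ ⟨C, k, hC⟩
    exact ⟨j, by rw [hj]⟩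
  choose E hE using hguess
  -- apply the arrow relation
  obtain ⟨B, hB1, hB2⟩ := harrow W hW (AA D E)
    (fun x hx => absurd (AA_sub D E hD1 hD4 x hx) (lt_irrefl x))
    (fun x => (hlt_iff _).mpr (card_mono' (AA_sub D E hD1 hD4 x) (hW1 x)))
    (by
      intro X hX
      have h1 : 2 ≤ #X := hX ▸ hη
      obtain ⟨x, y, hxy⟩ := two_le_iff.mp h1
      have key : ∀ a b : W, a ∈ X → b ∈ X → a < b → #(⋂ x ∈ X, AA D E x : Set W) < ℵ_ Ordinal.omega0.{u} := by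
        intro a b ha hb hab
        obtain ⟨n, hn⟩ := AA_ad D E hD1 hD2 hD3 hD4 b a hab
        refine lt_of_le_of_lt (card_mono' ?_ hn) (aleph_nat_lt_omega n)
        intro z hz
        rw [Set.mem_iInter₂] at hz
        exact ⟨hz b hb, hz a ha⟩
      have hne : x.1 ≠ y.1 := fun h => hxy (Subtype.ext h)
      rcases lt_or_gt_of_ne hne with h | h
      · exact key _ _ x.2 y.2 h
      · exact key _ _ y.2 x.2 h)
  have hBu : ∀ w, ∃ b ∈ B, w < b := by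
    intro w
    by_contra hcon
    push Not at hcon
    have h1 : #B ≤ ℵ_ Ordinal.omega0.{u} := card_mono' (fun b hb => hcon b hb) (hIic w)
    rw [hB1, ← hsucc] at h1
    exact absurd h1 (not_le.mpr (lt_succ _))
  obtain ⟨α, hα, x, hx, hlt, hmem⟩ := AA_nofree D E hD1 hD4 hcatch hE B hBu
  exact hB2 x hx α hα hlt.ne hmem

end Pool.Agent.Results.MP_dbf0a5_lc.NoRelation
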